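import Pool.Agent.H161R7.ShiftProd

set_option autoImplicit false

/-!
MP_99abf8_co: for all `a, b ≥ 1` there are graphs `G` and `H` with chromatic numbers `a` and `b`
whose Cartesian sum has chromatic number at most `22 (a + b)`.
-/

namespace Pool.Agent.Results.MP_99abf8_co.CartesianSumOrder

open Pool.Agent.H161R7.ShiftProd

lemma nonempty_SV {a : ℕ} (ha : 1 ≤ a) : Nonempty (SV (2 ^ a)) := by
  have h2 : 2 ≤ 2 ^ a := by
    calc 2 = 2 ^ 1 := rfl
      _ ≤ 2 ^ a := Nat.pow_le_pow_right (by norm_num) ha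
  exact ⟨⟨(⟨0, by omega⟩, ⟨1, by omega⟩), by simp [Fin.lt_def]⟩⟩

/-- For all `a, b ≥ 1` there are finite nonempty graphs `G`, `H` with `χ(G) = a`, `χ(H) = b` and
`χ(G ⊕ H) ≤ 22 (a + b)`. -/
theorem result (a b : ℕ) (ha : 1 ≤ a) (hb : 1 ≤ b) :
    ∃ (V W : Type) (_ : Fintype V) (_ : Fintype W) (_ : Nonempty V) (_ : Nonempty W)
      (G : SimpleGraph V) (H : SimpleGraph W),
      G.chromaticNumber = a ∧ H.chromaticNumber = b ∧
        (cartSum G H).chromaticNumber ≤ ((22 * (a + b) : ℕ) : ℕ∞) := by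
  have hval : ∀ k : ℕ, (shift (2 ^ k)).chromaticNumber = k := by
    intro k
    apply le_antisymm (shift_upper k).chromaticNumber_le
    have h1 := chi_shift k
    have h2 : (shift (2 ^ k)).chromaticNumber ≠ ⊤ :=
      ne_top_of_le_ne_top (ENat.natCast_ne_top k) (shift_upper k).chromaticNumber_le
    have h3 : ((chi (shift (2 ^ k)) : ℕ) : ℕ∞) = (shift (2 ^ k)).chromaticNumber :=
      ENat.natCast_toNat h2
    rw [← h3, h1]
  exact ⟨SV (2 ^ a), SV (2 ^ b), inferInstance, inferInstance, nonempty_SV ha, nonempty_SV hb,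
    shift (2 ^ a), shift (2 ^ b), hval a, hval b, (cartSum_shift a b ha).chromaticNumber_le⟩

end Pool.Agent.Results.MP_99abf8_co.CartesianSumOrder
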