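import Pool.Agent.H161R7.ShiftProd

set_option autoImplicit false

/-!
MP_99abf8_co: none of the `2^8` local products on `V(G) × V(H)` is `c`-multiplicative for any
constant `c > 0`.
-/

namespace Pool.Agent.Results.MP_99abf8_co.LocalProducts

open Pool.Agent.H161R7.ShiftProd

/-- the three possible relations between two vertices of a graph: the vertices are the same,
joined by an edge, or apart (distinct and not joined) -/
inductive PairType
  | same
  | joined
  | apart

/-- two vertices of `G` have the given relation -/
def PairType.Holds {V : Type} (G : SimpleGraph V) : PairType → V → V → Prop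
  | .same, x, y => x = y
  | .joined, x, y => G.Adj x y
  | .apart, x, y => x ≠ y ∧ ¬ G.Adj x y

lemma holds_comm {V : Type} {G : SimpleGraph V} {r : PairType} {x y : V}
    (h : r.Holds G x y) : r.Holds G y x := by
  cases r with
  | same => exact Eq.symm h
  | joined => exact SimpleGraph.Adj.symm (G := G) h
  | apart => exact ⟨fun h' => h.1 h'.symm, fun h' => h.2 h'.symm⟩

/-- the local product with rule `R`: the vertex set is `V × W`, and two distinct pairs are adjacent
iff the relation in the first coordinate together with the relation in the second one is in `R`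
(whether `(same, same)` is in `R` plays no role, so there are `2^8` products) -/
def localProd (R : Set (PairType × PairType)) {V W : Type} (G : SimpleGraph V)
    (H : SimpleGraph W) : SimpleGraph (V × W) where
  Adj p q := p ≠ q ∧ ∃ r s : PairType, (r, s) ∈ R ∧ r.Holds G p.1 q.1 ∧ s.Holds H p.2 q.2
  symm := ⟨fun _ _ h => ⟨h.1.symm, by
    obtain ⟨r, s, hrs, h1, h2⟩ := h.2
    exact ⟨r, s, hrs, holds_comm h1, holds_comm h2⟩⟩⟩
  loopless := ⟨fun _ h => h.1 rfl⟩

/-- the local product with rule `R` is `c`-multiplicative; `chi` is the chromatic number -/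
def IsMultiplicative (R : Set (PairType × PairType)) (c : ℝ) : Prop :=
  ∀ (V W : Type) [Fintype V] [Fintype W] [Nonempty V] [Nonempty W] (G : SimpleGraph V)
    (H : SimpleGraph W), c * (chi G : ℝ) * (chi H : ℝ) ≤ (chi (localProd R G H) : ℝ) ∧
      (chi (localProd R G H) : ℝ) ≤ (chi G : ℝ) * (chi H : ℝ)

/-- a rule with the upper bound uses only pairs with an edge in one coordinate -/
lemma joined_of_upper (R : Set (PairType × PairType))
    (hR : chi (localProd R (⊥ : SimpleGraph Bool) (⊥ : SimpleGraph Bool)) ≤ 1)
    {r s : PairType} (hrs : (r, s) ∈ R) : r = .joined ∨ s = .joined ∨ (r = .same ∧ s = .same) := by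
  classical
  have hcol : (localProd R (⊥ : SimpleGraph Bool) (⊥ : SimpleGraph Bool)).Colorable 1 :=
    (colorable_chi (SimpleGraph.colorable_of_fintype _)).mono hR
  obtain ⟨c⟩ := hcol
  have hno : ∀ p q, ¬ (localProd R (⊥ : SimpleGraph Bool) (⊥ : SimpleGraph Bool)).Adj p q := by
    intro p q h
    exact c.valid h (Subsingleton.elim _ _)
  by_contra hcon
  push Not at hcon
  obtain ⟨h1, h2, h3⟩ := hcon
  cases r with
  | joined => exact h1 rfl
  | same =>
    cases s with
    | joined => exact h2 rfl
    | same => exact h3 rfl rfl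
    | apart =>
      exact hno (false, false) (false, true) ⟨by decide, .same, .apart, hrs, rfl, by decide,
        fun h => h⟩
  | apart =>
    cases s with
    | joined => exact h2 rfl
    | same =>
      exact hno (false, false) (true, false) ⟨by decide, .apart, .same, hrs, ⟨by decide,
        fun h => h⟩, rfl⟩
    | apart =>
      exact hno (false, false) (true, true) ⟨by decide, .apart, .apart, hrs, ⟨by decide,
        fun h => h⟩, by decide, fun h => h⟩

/-- No local product is `c`-multiplicative for any `c > 0`. -/
theorem result (R : Set (PairType × PairType)) (c : ℝ) (hc : 0 < c) : ¬ IsMultiplicative R c := by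
  classical
  intro hR
  have hbot : chi (localProd R (⊥ : SimpleGraph Bool) (⊥ : SimpleGraph Bool)) ≤ 1 := by
    have h1 := (hR Bool Bool ⊥ ⊥).2
    have h2 : chi (⊥ : SimpleGraph Bool) ≤ 1 := by
      apply chi_le
      exact ⟨SimpleGraph.Coloring.mk (fun _ => 0) (fun {a b} h => absurd h (by simp))⟩
    have h3 : chi (localProd R (⊥ : SimpleGraph Bool) (⊥ : SimpleGraph Bool)) ≤
        chi (⊥ : SimpleGraph Bool) * chi (⊥ : SimpleGraph Bool) := by exact_mod_cast h1
    calc _ ≤ _ := h3
      _ ≤ 1 * 1 := Nat.mul_le_mul h2 h2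
      _ = 1 := rfl
  -- the product is a subgraph of the Cartesian sum
  have hsub : ∀ (V W : Type) (G : SimpleGraph V) (H : SimpleGraph W),
      localProd R G H ≤ cartSum G H := by
    intro V W G H p q h
    obtain ⟨hne, r, s, hrs, h1, h2⟩ := h
    rcases joined_of_upper R hbot hrs with h | h | ⟨h, h'⟩
    · subst h; exact Or.inl h1
    · subst h; exact Or.inr h2
    · subst h; subst h'
      exact absurd (Prod.ext h1 h2) hne
  obtain ⟨a, ha⟩ := exists_nat_gt (44 / c)
  have ha1 : 1 ≤ a := by
    rcases Nat.eq_zero_or_pos a with h | h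
    · subst h
      have : 0 < 44 / c := by positivity
      simp only [Nat.cast_zero] at ha
      linarith
    · exact h
  have hne : Nonempty (SV (2 ^ a)) := by
    have h2 : 2 ≤ 2 ^ a := by
      calc 2 = 2 ^ 1 := rfl
        _ ≤ 2 ^ a := Nat.pow_le_pow_right (by norm_num) ha1
    exact ⟨⟨(⟨0, by omega⟩, ⟨1, by omega⟩), by simp [Fin.lt_def]⟩⟩
  have h1 := (hR (SV (2 ^ a)) (SV (2 ^ a)) (shift (2 ^ a)) (shift (2 ^ a))).1
  rw [chi_shift] at h1
  have h2 : chi (localProd R (shift (2 ^ a)) (shift (2 ^ a))) ≤ 22 * (a + a) :=
    chi_le ((cartSum_shift a a ha1).mono_left (hsub _ _ _ _))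
  have h3 : (chi (localProd R (shift (2 ^ a)) (shift (2 ^ a))) : ℝ) ≤ 44 * a := by
    have : (chi (localProd R (shift (2 ^ a)) (shift (2 ^ a))) : ℝ) ≤ ((22 * (a + a) : ℕ) : ℝ) := by
      exact_mod_cast h2
    push_cast at this
    linarith
  have hapos : (0 : ℝ) < a := by exact_mod_cast ha1
  have h4 : 44 < c * a := by
    rw [div_lt_iff₀ hc] at ha
    linarith
  have h5 : 44 * (a : ℝ) < c * a * a := mul_lt_mul_of_pos_right h4 hapos
  linarith

end Pool.Agent.Results.MP_99abf8_co.LocalProducts
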